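import Mathlib

/-!
# Outer mutual-visibility number under vertex deletion: no linear bound
-/

namespace Pool.Agent.Results.MP_a310d2_co.NoLinearBound

open SimpleGraph

/-- `u` and `v` are `S`-visible in `G`: some shortest `u`-`v` path has no internal vertex in `S`. -/
def SVisible {V : Type} (G : SimpleGraph V) (S : Set V) (u v : V) : Prop :=
  ∃ p : G.Walk u v, p.IsPath ∧ p.length = G.dist u v ∧
    ∀ w ∈ p.support, w ≠ u → w ≠ v → w ∉ S

/-- `S` is an outer mutual-visibility set of `G`. -/
def IsOuterMV {V : Type} (G : SimpleGraph V) (S : Set V) : Prop :=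
  ∀ u ∈ S, ∀ v : V, SVisible G S u v

/-- The outer mutual-visibility number of a finite graph: the largest size of an outer
mutual-visibility set. -/
noncomputable def muO {V : Type} (G : SimpleGraph V) : ℕ :=
  sSup {n | ∃ S : Finset V, IsOuterMV G (S : Set V) ∧ S.card = n}

/-! ### General facts -/

section general

variable {V : Type} {G : SimpleGraph V}

theorem lip_walk {f : V → ℕ} (hL : ∀ y z, G.Adj y z → f z ≤ f y + 1) {u v : V}
    (p : G.Walk u v) : f v ≤ f u + p.length := by
  induction p with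
  | nil => simp
  | cons h p ih =>
    have := hL _ _ h
    simp only [Walk.length_cons]
    omega

theorem reach_of_descent {f : V → ℕ} {u : V}
    (hD : ∀ z, z ≠ u → ∃ y, G.Adj y z ∧ f y + 1 = f z) :
    ∀ n z, f z = n → ∃ p : G.Walk u z, p.length ≤ n := by
  intro n
  induction n with
  | zero =>
    intro z hz
    by_cases h : z = u
    · subst h; exact ⟨Walk.nil, by simp⟩
    · obtain ⟨y, _, hy⟩ := hD z h
      omega
  | succ n ih =>
    intro z hz
    by_cases h : z = u
    · subst h; exact ⟨Walk.nil, by simp⟩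
    · obtain ⟨y, hadj, hy⟩ := hD z h
      obtain ⟨p, hp⟩ := ih y (by omega)
      refine ⟨p.concat hadj, ?_⟩
      rw [Walk.length_concat]
      omega

/-- Blocking lemma: if `f` is a distance potential from `u` and the only neighbour of `w` at
potential one less is `v`, where `v ≠ u`, then `v` is on every shortest path. -/
theorem blocked {f : V → ℕ} {u v w : V} {S : Set V} (h0 : f u = 0)
    (hL : ∀ y z, G.Adj y z → f z ≤ f y + 1)
    (hD : ∀ z, z ≠ u → ∃ y, G.Adj y z ∧ f y + 1 = f z)
    (hvis : SVisible G S u w) (hwu : w ≠ u) (hvu : v ≠ u) 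
    (honly : ∀ y, G.Adj y w → f y + 1 = f w → y = v) : v ∉ S := by
  obtain ⟨p, hp, hlen, hS⟩ := hvis
  obtain ⟨q, hq⟩ := reach_of_descent hD (f w) w rfl
  have h1 : G.dist u w ≤ f w := le_trans (dist_le q) hq
  have h2 : f w ≤ f u + p.length := lip_walk hL p
  have h3 : p.length = f w := by omega
  -- the penultimate vertex
  have hnn : ¬ p.Nil := by
    intro hnil
    exact hwu hnil.eq.symm
  have hadj : G.Adj p.penultimate w := p.adj_penultimate hnn
  have h4 : f p.penultimate ≤ f u + p.dropLast.length := lip_walk hL p.dropLast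
  have h5 : p.dropLast.length + 1 = p.length := by
    have h := congrArg Walk.length (p.concat_dropLast (p.adj_penultimate hnn))
    rw [Walk.length_concat] at h
    exact h
  have h6 := hL _ _ hadj
  have h7 : p.penultimate = v := honly _ hadj (by omega)
  have hmem : v ∈ p.support := by
    rw [← h7]; exact p.getVert_mem_support _
  have hvw : v ≠ w := by
    rw [← h7]; exact hadj.ne
  exact hS v hmem hvu hvw

/-- If every vertex of `S` has at most one neighbour and `G` is connected then `S` is an outer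
mutual-visibility set. -/
theorem leaves_outer (hc : G.Connected) (S : Set V)
    (hS : ∀ w ∈ S, ∀ y z, G.Adj w y → G.Adj w z → y = z) : IsOuterMV G S := by
  classical
  intro u _ v
  obtain ⟨p, hp⟩ := hc.exists_walk_length_eq_dist u v
  refine ⟨p, p.isPath_of_length_eq_dist hp, hp, ?_⟩
  intro w hw hwu hwv hwS
  -- split at w
  set p1 := p.takeUntil w hw with hp1
  set p2 := p.dropUntil w hw with hp2
  have hsum : p1.length + p2.length = p.length := by
    have := congrArg Walk.length (p.take_spec hw)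
    rw [Walk.length_append] at this
    exact this
  have hn1 : ¬ p1.Nil := fun h => hwu h.eq.symm
  have hn2 : ¬ p2.Nil := fun h => hwv h.eq
  have ha1 : G.Adj p1.penultimate w := p1.adj_penultimate hn1
  have ha2 : G.Adj w p2.snd := p2.adj_snd hn2
  have heq : p1.penultimate = p2.snd := hS w hwS _ _ ha1.symm ha2
  have hl1 : p1.dropLast.length + 1 = p1.length := by
    have h := congrArg Walk.length (p1.concat_dropLast ha1)
    rw [Walk.length_concat] at h
    exact h
  have hl2 : p2.tail.length + 1 = p2.length := Walk.length_tail_add_one hn2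
  have hd1 : G.dist u p1.penultimate ≤ p1.dropLast.length := dist_le _
  have hd2 : G.dist p2.snd v ≤ p2.tail.length := dist_le _
  have htri := hc.dist_triangle (u := u) (v := p1.penultimate) (w := v)
  have heq' : G.dist p1.penultimate v = G.dist p2.snd v := by rw [heq]
  omega

end general

/-! ### The graph: a rim path, `m` spokes of length `L`, and a hub `none` joined to all tips -/

/-- Adjacency of `(i,k)` and `(j,l)`: consecutive on a spoke or consecutive on the rim. -/
def cadj (m : ℕ) (a b : Fin m × Fin (m + 1)) : Prop :=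
  (a.1 = b.1 ∧ (a.2.1 + 1 = b.2.1 ∨ b.2.1 + 1 = a.2.1)) ∨
    (a.2.1 = 0 ∧ b.2.1 = 0 ∧ (a.1.1 + 1 = b.1.1 ∨ b.1.1 + 1 = a.1.1))

/-- The adjacency relation with the hub. -/
def wadj (m : ℕ) : Option (Fin m × Fin (m + 1)) → Option (Fin m × Fin (m + 1)) → Prop
  | none, none => False
  | none, some b => b.2.1 = m
  | some a, none => a.2.1 = m
  | some a, some b => cadj m a b

/-- The graph. -/
def W (m : ℕ) : SimpleGraph (Option (Fin m × Fin (m + 1))) where
  Adj := wadj m
  symm := ⟨by
    intro a b h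
    rcases a with _ | ⟨i, k⟩ <;> rcases b with _ | ⟨j, l⟩ <;> simp only [wadj, cadj] at h ⊢
    · exact h
    · exact h
    · rcases h with ⟨h1, h2⟩ | ⟨h1, h2, h3⟩
      · exact Or.inl ⟨h1.symm, h2.symm⟩
      · exact Or.inr ⟨h2, h1, h3.symm⟩⟩
  loopless := ⟨by
    intro a h
    rcases a with _ | ⟨i, k⟩ <;> simp only [wadj, cadj] at h
    omega⟩

/-- Distance potential from `(i,k)`. -/
def pot (m i k : ℕ) : Option (Fin m × Fin (m + 1)) → ℕ
  | none => m + 1 - k
  | some b => if b.1.1 = i then (k - b.2.1) + (b.2.1 - k)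
      else min (k + b.2.1 + ((i - b.1.1) + (b.1.1 - i))) (2 * (m + 1) - k - b.2.1)

theorem pot_zero (m : ℕ) (i : Fin m) (k : Fin (m + 1)) : pot m i.1 k.1 (some (i, k)) = 0 := by
  simp [pot]

theorem pot_lip (m : ℕ) (i : Fin m) (k : Fin (m + 1)) (y z : Option (Fin m × Fin (m + 1)))
    (h : (W m).Adj y z) : pot m i.1 k.1 z ≤ pot m i.1 k.1 y + 1 := by
  have hi := i.2
  have hk := k.2
  rcases y with _ | ⟨a, b⟩ <;> rcases z with _ | ⟨c, d⟩ <;>
    simp only [W, wadj, cadj, pot] at h ⊢
  · have hc := c.2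
    have hd := d.2
    split_ifs <;> omega
  · have ha := a.2
    have hb := b.2
    split_ifs <;> omega
  · have ha := a.2
    have hb := b.2
    have hc := c.2
    have hd := d.2
    rw [Fin.ext_iff] at h
    split_ifs <;> omega

theorem pot_desc (m : ℕ) (i : Fin m) (k : Fin (m + 1)) (z : Option (Fin m × Fin (m + 1)))
    (hz : z ≠ some (i, k)) : ∃ y, (W m).Adj y z ∧ pot m i.1 k.1 y + 1 = pot m i.1 k.1 z := by
  have hi := i.2
  have hk := k.2
  rcases z with _ | ⟨c, d⟩
  · refine ⟨some (i, ⟨m, by omega⟩), ?_, ?_⟩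
    · simp [W, wadj]
    · simp only [pot, if_true]
      omega
  · have hc := c.2
    have hd := d.2
    by_cases hci : c = i
    · subst hci
      have hdk : d.1 ≠ k.1 := by
        intro h
        exact hz (by rw [Fin.ext h])
      by_cases hlt : d.1 < k.1
      · refine ⟨some (c, ⟨d.1 + 1, by omega⟩), ?_, ?_⟩
        · simp [W, wadj, cadj]
        · simp only [pot, if_true]
          omega
      · refine ⟨some (c, ⟨d.1 - 1, by omega⟩), ?_, ?_⟩
        · simp only [W, wadj, cadj, true_and]
          omega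
        · simp only [pot, if_true]
          omega
    · have hci' : c.1 ≠ i.1 := fun h => hci (Fin.ext h)
      by_cases hmin : k.1 + d.1 + ((i.1 - c.1) + (c.1 - i.1)) ≤ 2 * (m + 1) - k.1 - d.1
      · -- go down the spoke or along the rim
        by_cases hd0 : d.1 = 0
        · -- along the rim
          by_cases hlt : c.1 < i.1
          · refine ⟨some (⟨c.1 + 1, by omega⟩, d), ?_, ?_⟩
            · exact Or.inr ⟨hd0, hd0, Or.inr rfl⟩
            · simp only [pot]
              split_ifs <;> omega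
          · refine ⟨some (⟨c.1 - 1, by omega⟩, d), ?_, ?_⟩
            · refine Or.inr ⟨hd0, hd0, Or.inl ?_⟩
              show c.1 - 1 + 1 = c.1
              omega
            · simp only [pot]
              split_ifs <;> omega
        · refine ⟨some (c, ⟨d.1 - 1, by omega⟩), ?_, ?_⟩
          · simp only [W, wadj, cadj, true_and]
            omega
          · simp only [pot]
            split_ifs <;> omega
      · -- go up the spoke
        by_cases hdm : d.1 = m
        · refine ⟨none, ?_, ?_⟩
          · simp only [W, wadj]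
            omega
          · simp only [pot]
            split_ifs <;> omega
        · refine ⟨some (c, ⟨d.1 + 1, by omega⟩), ?_, ?_⟩
          · exact Or.inl ⟨rfl, Or.inr rfl⟩
          · simp only [pot]
            split_ifs <;> omega

theorem blockedW {m : ℕ} {S : Set (Option (Fin m × Fin (m + 1)))} (hS : IsOuterMV (W m) S)
    {i : Fin m} {k : Fin (m + 1)} (hu : some (i, k) ∈ S)
    {v w : Option (Fin m × Fin (m + 1))} (hwu : w ≠ some (i, k)) (hvu : v ≠ some (i, k))
    (honly : ∀ y, (W m).Adj y w → pot m i.1 k.1 y + 1 = pot m i.1 k.1 w → y = v) : v ∉ S :=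
  blocked (pot_zero m i k) (pot_lip m i k) (pot_desc m i k) (hS _ hu w) hwu hvu honly

theorem one_per_spoke {m : ℕ} {S : Set (Option (Fin m × Fin (m + 1)))}
    (hS : IsOuterMV (W m) S) {i : Fin m} {k l : Fin (m + 1)} (hk : 1 ≤ k.1)
    (hkl : k.1 < l.1) (hu : some (i, l) ∈ S) : some (i, k) ∉ S := by
  have hk2 := k.2
  have hl2 := l.2
  have hi2 := i.2
  refine blockedW hS hu (w := some (i, ⟨k.1 - 1, by omega⟩)) ?_ ?_ ?_
  · intro h
    simp only [Option.some.injEq, Prod.mk.injEq, Fin.ext_iff, true_and] at h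
    omega
  · intro h
    simp only [Option.some.injEq, Prod.mk.injEq, Fin.ext_iff, true_and] at h
    omega
  · intro y hy hpot
    rcases y with _ | ⟨a, b⟩
    · have hy' : k.1 - 1 = m := hy
      omega
    · have ha := a.2
      have hb := b.2
      have hy' : (a = i ∧ (b.1 + 1 = k.1 - 1 ∨ k.1 - 1 + 1 = b.1)) ∨
        (b.1 = 0 ∧ k.1 - 1 = 0 ∧ (a.1 + 1 = i.1 ∨ i.1 + 1 = a.1)) := hy
      simp only [pot, if_true] at hpot
      rcases hy' with ⟨rfl, h | h⟩ | ⟨h1, h2, h3⟩
      · simp only [if_true] at hpot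
        omega
      · rw [Option.some.injEq, Prod.mk.injEq]
        exact ⟨rfl, Fin.ext (by omega)⟩
      · rw [if_neg (by omega)] at hpot
        omega

theorem one_rim {m : ℕ} {S : Set (Option (Fin m × Fin (m + 1)))}
    (hS : IsOuterMV (W m) S) {i j : Fin m} {k l : Fin (m + 1)} (hk : k.1 = 0) (hl : l.1 = 0)
    (hij : i ≠ j) (hu : some (i, k) ∈ S) : some (j, l) ∉ S := by
  have hi2 := i.2
  have hj2 := j.2
  have hij' : i.1 ≠ j.1 := fun h => hij (Fin.ext h)
  refine blockedW hS hu (w := some (j, ⟨1, by omega⟩)) ?_ ?_ ?_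
  · intro h
    simp only [Option.some.injEq, Prod.mk.injEq, Fin.ext_iff] at h
    omega
  · intro h
    simp only [Option.some.injEq, Prod.mk.injEq, Fin.ext_iff] at h
    omega
  · intro y hy hpot
    rcases y with _ | ⟨a, b⟩
    · have hy' : 1 = m := hy
      omega
    · have ha := a.2
      have hb := b.2
      have hy' : (a = j ∧ (b.1 + 1 = 1 ∨ 1 + 1 = b.1)) ∨
        (b.1 = 0 ∧ 1 = 0 ∧ (a.1 + 1 = j.1 ∨ j.1 + 1 = a.1)) := hy
      simp only [pot] at hpot
      rcases hy' with ⟨rfl, h | h⟩ | ⟨h1, h2, h3⟩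
      · rw [Option.some.injEq, Prod.mk.injEq]
        exact ⟨rfl, Fin.ext (by omega)⟩
      · rw [if_neg (by omega), if_neg (by omega)] at hpot
        omega
      · omega

theorem lower {m : ℕ} {S : Set (Option (Fin m × Fin (m + 1)))}
    (hS : IsOuterMV (W m) S) {i j : Fin m} {k l : Fin (m + 1)}
    (hij : i ≠ j) (hu : some (i, k) ∈ S) (hv : some (j, l) ∈ S) :
    2 * m ≤ 2 * (k.1 + l.1) + ((i.1 - j.1) + (j.1 - i.1)) := by
  have hi2 := i.2
  have hj2 := j.2
  have hk2 := k.2
  have hl2 := l.2
  have hij' : i.1 ≠ j.1 := fun h => hij (Fin.ext h)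
  by_contra hcon
  have hlm : l.1 + 1 < m + 1 := by omega
  refine blockedW hS hu (v := some (j, l)) (w := some (j, ⟨l.1 + 1, hlm⟩)) ?_ ?_ ?_ hv
  · intro h
    simp only [Option.some.injEq, Prod.mk.injEq, Fin.ext_iff] at h
    omega
  · intro h
    simp only [Option.some.injEq, Prod.mk.injEq, Fin.ext_iff] at h
    omega
  · intro y hy hpot
    rcases y with _ | ⟨a, b⟩
    · have hy' : l.1 + 1 = m := hy
      simp only [pot] at hpot
      rw [if_neg (by omega)] at hpot
      omega
    · have ha := a.2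
      have hb := b.2
      have hy' : (a = j ∧ (b.1 + 1 = l.1 + 1 ∨ l.1 + 1 + 1 = b.1)) ∨
        (b.1 = 0 ∧ l.1 + 1 = 0 ∧ (a.1 + 1 = j.1 ∨ j.1 + 1 = a.1)) := hy
      simp only [pot] at hpot
      rcases hy' with ⟨rfl, h | h⟩ | ⟨h1, h2, h3⟩
      · rw [Option.some.injEq, Prod.mk.injEq]
        exact ⟨rfl, Fin.ext (by omega)⟩
      · rw [if_neg (by omega), if_neg (by omega)] at hpot
        omega
      · omega

theorem upper {m : ℕ} {S : Set (Option (Fin m × Fin (m + 1)))}
    (hS : IsOuterMV (W m) S) {i j : Fin m} {k l : Fin (m + 1)} (hl : 1 ≤ l.1)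
    (hij : i ≠ j) (hu : some (i, k) ∈ S) (hv : some (j, l) ∈ S) :
    2 * (k.1 + l.1) + ((i.1 - j.1) + (j.1 - i.1)) ≤ 2 * m + 4 := by
  have hi2 := i.2
  have hj2 := j.2
  have hk2 := k.2
  have hl2 := l.2
  have hij' : i.1 ≠ j.1 := fun h => hij (Fin.ext h)
  by_contra hcon
  refine blockedW hS hu (v := some (j, l)) (w := some (j, ⟨l.1 - 1, by omega⟩)) ?_ ?_ ?_ hv
  · intro h
    simp only [Option.some.injEq, Prod.mk.injEq, Fin.ext_iff] at h
    omega
  · intro h
    simp only [Option.some.injEq, Prod.mk.injEq, Fin.ext_iff] at h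
    omega
  · intro y hy hpot
    rcases y with _ | ⟨a, b⟩
    · have hy' : l.1 - 1 = m := hy
      omega
    · have ha := a.2
      have hb := b.2
      have hy' : (a = j ∧ (b.1 + 1 = l.1 - 1 ∨ l.1 - 1 + 1 = b.1)) ∨
        (b.1 = 0 ∧ l.1 - 1 = 0 ∧ (a.1 + 1 = j.1 ∨ j.1 + 1 = a.1)) := hy
      simp only [pot] at hpot
      rcases hy' with ⟨rfl, h | h⟩ | ⟨h1, h2, h3⟩
      · rw [if_neg (by omega), if_neg (by omega)] at hpot
        omega
      · rw [Option.some.injEq, Prod.mk.injEq]
        exact ⟨rfl, Fin.ext (by omega)⟩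
      · rw [if_neg (by omega : ¬ j.1 = i.1)] at hpot
        split_ifs at hpot <;> omega

/-- Spoke index. -/
def spoke (m : ℕ) : Option (Fin m × Fin (m + 1)) → ℕ
  | none => 0
  | some a => a.1.1

/-- Off the rim and not the hub. -/
def offRim (m : ℕ) : Option (Fin m × Fin (m + 1)) → Prop
  | none => False
  | some a => 1 ≤ a.2.1

theorem card_le_nine {m : ℕ} (S : Finset (Option (Fin m × Fin (m + 1))))
    (hS : IsOuterMV (W m) (S : Set (Option (Fin m × Fin (m + 1))))) : S.card ≤ 9 := by
  classical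
  set T := S.filter (fun v => offRim m v) with hT
  set R := S.filter (fun v => ¬ offRim m v ∧ v ≠ none) with hR
  set N := S.filter (fun v => v = none) with hN
  have hcov : S ⊆ T ∪ (R ∪ N) := by
    intro v hv
    simp only [hT, hR, hN, Finset.mem_union, Finset.mem_filter]
    by_cases h1 : v = none
    · exact Or.inr (Or.inr ⟨hv, h1⟩)
    · by_cases h2 : offRim m v
      · exact Or.inl ⟨hv, h2⟩
      · exact Or.inr (Or.inl ⟨hv, h2, h1⟩)
  have hNc : N.card ≤ 1 := by
    rw [Finset.card_le_one]
    intro a ha b hb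
    simp only [hN, Finset.mem_filter] at ha hb
    rw [ha.2, hb.2]
  have hRc : R.card ≤ 1 := by
    rw [Finset.card_le_one]
    intro a ha b hb
    simp only [hR, Finset.mem_filter] at ha hb
    rcases a with _ | ⟨i, k⟩
    · exact absurd rfl ha.2.2
    rcases b with _ | ⟨j, l⟩
    · exact absurd rfl hb.2.2
    have hk : k.1 = 0 := by
      have h : ¬ 1 ≤ k.1 := ha.2.1
      omega
    have hl : l.1 = 0 := by
      have h : ¬ 1 ≤ l.1 := hb.2.1
      omega
    by_contra hne
    have hij : i ≠ j := by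
      intro h
      exact hne (by rw [h, Fin.ext (hk.trans hl.symm)])
    exact one_rim hS hk hl hij (Finset.mem_coe.mpr ha.1) (Finset.mem_coe.mpr hb.1)
  have hinj : Set.InjOn (spoke m) (T : Set (Option (Fin m × Fin (m + 1)))) := by
    intro a ha b hb hab
    simp only [hT, Finset.mem_coe, Finset.mem_filter] at ha hb
    rcases a with _ | ⟨i, k⟩
    · exact absurd ha.2 id
    rcases b with _ | ⟨j, l⟩
    · exact absurd hb.2 id
    have hk : 1 ≤ k.1 := ha.2
    have hl : 1 ≤ l.1 := hb.2
    have hij : i = j := Fin.ext hab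
    subst hij
    rcases lt_trichotomy k.1 l.1 with h | h | h
    · exact absurd (Finset.mem_coe.mpr ha.1) (one_per_spoke hS hk h (Finset.mem_coe.mpr hb.1))
    · rw [Fin.ext h]
    · exact absurd (Finset.mem_coe.mpr hb.1) (one_per_spoke hS hl h (Finset.mem_coe.mpr ha.1))
  have hTc : T.card ≤ 7 := by
    by_contra hcon
    have h8 : 8 ≤ (T.image (spoke m)).card := by
      rw [Finset.card_image_of_injOn hinj]
      omega
    set e := (T.image (spoke m)).orderEmbOfCardLe h8 with he
    have hmem : ∀ t : Fin 8, ∃ i : Fin m, ∃ k : Fin (m + 1), some (i, k) ∈ S ∧ 1 ≤ k.1 ∧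
        i.1 = e t := by
      intro t
      have h1 : e t ∈ T.image (spoke m) := Finset.orderEmbOfCardLe_mem _ _ t
      rw [Finset.mem_image] at h1
      obtain ⟨a, ha, hat⟩ := h1
      simp only [hT, Finset.mem_filter] at ha
      rcases a with _ | ⟨i, k⟩
      · exact absurd ha.2 id
      · exact ⟨i, k, ha.1, ha.2, hat⟩
    have hlt : ∀ s t : Fin 8, s < t → e s < e t := fun s t h => e.strictMono h
    have h01 := hlt 0 1 (by decide)
    have h12 := hlt 1 2 (by decide)
    have h23 := hlt 2 3 (by decide)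
    have h34 := hlt 3 4 (by decide)
    have h45 := hlt 4 5 (by decide)
    have h56 := hlt 5 6 (by decide)
    have h67 := hlt 6 7 (by decide)
    obtain ⟨i0, k0, hS0, hk0, hi0⟩ := hmem 0
    obtain ⟨i1, k1, hS1, hk1, hi1⟩ := hmem 1
    obtain ⟨i6, k6, hS6, hk6, hi6⟩ := hmem 6
    obtain ⟨i7, k7, hS7, hk7, hi7⟩ := hmem 7
    have n01 : i0 ≠ i1 := fun h => by
      have := congrArg Fin.val h
      omega
    have n07 : i0 ≠ i7 := fun h => by
      have := congrArg Fin.val h
      omega
    have n16 : i1 ≠ i6 := fun h => by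
      have := congrArg Fin.val h
      omega
    have n67 : i6 ≠ i7 := fun h => by
      have := congrArg Fin.val h
      omega
    have hA := lower hS n01 (Finset.mem_coe.mpr hS0) (Finset.mem_coe.mpr hS1)
    have hB := lower hS n67 (Finset.mem_coe.mpr hS6) (Finset.mem_coe.mpr hS7)
    have hC := upper hS hk7 n07 (Finset.mem_coe.mpr hS0) (Finset.mem_coe.mpr hS7)
    have hD := upper hS hk6 n16 (Finset.mem_coe.mpr hS1) (Finset.mem_coe.mpr hS6)
    omega
  have h1 := Finset.card_le_card hcov
  have h2 := Finset.card_union_le T (R ∪ N)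
  have h3 := Finset.card_union_le R N
  omega

theorem W_connected {m : ℕ} (hm : 1 ≤ m) : (W m).Connected := by
  have : Nonempty (Option (Fin m × Fin (m + 1))) := ⟨none⟩
  have key : ∀ z, (W m).Reachable (some (⟨0, hm⟩, 0)) z := by
    intro z
    obtain ⟨p, _⟩ := reach_of_descent (pot_desc m ⟨0, hm⟩ 0) _ z rfl
    exact ⟨p⟩
  exact { preconnected := fun a b => (key a).symm.trans (key b) }

/-- The vertex `(i,k)` of the graph with the hub deleted. -/
def vtx {m : ℕ} (i : Fin m) (k : Fin (m + 1)) :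
    (({none}ᶜ : Set (Option (Fin m × Fin (m + 1)))) : Type) :=
  ⟨some (i, k), by simp⟩

theorem comb_connected {m : ℕ} (hm : 1 ≤ m) :
    ((W m).induce ({none}ᶜ : Set (Option (Fin m × Fin (m + 1))))).Connected := by
  have : Nonempty (({none}ᶜ : Set (Option (Fin m × Fin (m + 1)))) : Type) := ⟨vtx ⟨0, hm⟩ 0⟩
  have h1 : ∀ (i : Fin m) (n : ℕ) (hn : n < m + 1),
      ((W m).induce ({none}ᶜ : Set (Option (Fin m × Fin (m + 1))))).Reachable
        (vtx i 0) (vtx i ⟨n, hn⟩) := by
    intro i n
    induction n with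
    | zero => intro hn; exact Reachable.refl _
    | succ n ih =>
      intro hn
      refine (ih (by omega)).trans (Adj.reachable ?_)
      exact Or.inl ⟨rfl, Or.inl rfl⟩
  have h2 : ∀ (n : ℕ) (hn : n < m),
      ((W m).induce ({none}ᶜ : Set (Option (Fin m × Fin (m + 1))))).Reachable
        (vtx ⟨0, hm⟩ 0) (vtx ⟨n, hn⟩ 0) := by
    intro n
    induction n with
    | zero => intro hn; exact Reachable.refl _
    | succ n ih =>
      intro hn
      refine (ih (by omega)).trans (Adj.reachable ?_)
      exact Or.inr ⟨rfl, rfl, Or.inl rfl⟩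
  have key : ∀ z, ((W m).induce ({none}ᶜ : Set (Option (Fin m × Fin (m + 1))))).Reachable
      (vtx ⟨0, hm⟩ 0) z := by
    rintro ⟨z, hz⟩
    rcases z with _ | ⟨i, k⟩
    · exact absurd rfl hz
    · exact (h2 i.1 i.2).trans (h1 i k.1 k.2)
  exact { preconnected := fun a b => (key a).symm.trans (key b) }

theorem muO_W_le (m : ℕ) : muO (W m) ≤ 9 := by
  unfold muO
  apply csSup_le'
  rintro n ⟨S, hS, rfl⟩
  exact card_le_nine S hS

theorem le_muO_comb {m : ℕ} (hm : 1 ≤ m) :
    m ≤ muO ((W m).induce ({none}ᶜ : Set (Option (Fin m × Fin (m + 1))))) := by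
  classical
  unfold muO
  apply le_csSup
  · refine ⟨Fintype.card (({none}ᶜ : Set (Option (Fin m × Fin (m + 1)))) : Type), ?_⟩
    rintro n ⟨S, _, rfl⟩
    exact Finset.card_le_univ S
  · refine ⟨Finset.univ.image (fun i : Fin m => vtx i (Fin.last m)), ?_, ?_⟩
    · apply leaves_outer (comb_connected hm)
      intro w hw
      simp only [Finset.coe_image, Finset.coe_univ, Set.image_univ, Set.mem_range] at hw
      obtain ⟨i, rfl⟩ := hw
      have hnb : ∀ y, ((W m).induce
          ({none}ᶜ : Set (Option (Fin m × Fin (m + 1))))).Adj (vtx i (Fin.last m)) y →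
          y = vtx i ⟨m - 1, by omega⟩ := by
        rintro ⟨y, hy⟩ hadj
        rcases y with _ | ⟨j, k⟩
        · exact absurd rfl hy
        · have hk := k.2
          have h : (i = j ∧ (m + 1 = k.1 ∨ k.1 + 1 = m)) ∨
            (m = 0 ∧ k.1 = 0 ∧ (i.1 + 1 = j.1 ∨ j.1 + 1 = i.1)) := hadj
          rcases h with ⟨rfl, h | h⟩ | ⟨h, _⟩
          · omega
          · apply Subtype.ext
            show some (i, k) = some (i, _)
            rw [Option.some.injEq, Prod.mk.injEq]
            refine ⟨rfl, Fin.ext ?_⟩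
            show k.1 = m - 1
            omega
          · omega
      intro y z hy hz
      rw [hnb y hy, hnb z hz]
    · rw [Finset.card_image_of_injective, Finset.card_univ, Fintype.card_fin]
      intro i j hij
      have := congrArg Subtype.val hij
      simp only [vtx, Option.some.injEq, Prod.mk.injEq] at this
      exact this.1

/-- No linear (indeed no) bound on `μ_o(G - x)` in terms of `μ_o(G)`: for all reals `a, b` some
connected `G` and vertex `x` with `G - x` connected have `μ_o(G - x) > a μ_o(G) + b`; moreover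
`μ_o(G) ≤ 9` can be kept while `μ_o(G - x)` is arbitrarily large. -/
theorem result :
    (∀ a b : ℝ, ∃ (V : Type) (_ : Fintype V) (G : SimpleGraph V) (x : V),
      G.Connected ∧ (G.induce ({x}ᶜ : Set V)).Connected ∧
        a * (muO G : ℝ) + b < (muO (G.induce ({x}ᶜ : Set V)) : ℝ)) ∧
    (∀ n : ℕ, ∃ (V : Type) (_ : Fintype V) (G : SimpleGraph V) (x : V),
      G.Connected ∧ (G.induce ({x}ᶜ : Set V)).Connected ∧
        muO G ≤ 9 ∧ n ≤ muO (G.induce ({x}ᶜ : Set V))) := by
  have main : ∀ n : ℕ, ∃ (V : Type) (_ : Fintype V) (G : SimpleGraph V) (x : V),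
      G.Connected ∧ (G.induce ({x}ᶜ : Set V)).Connected ∧
        muO G ≤ 9 ∧ n ≤ muO (G.induce ({x}ᶜ : Set V)) := by
    intro n
    exact ⟨Option (Fin (n + 1) × Fin (n + 1 + 1)), inferInstance, W (n + 1), none,
      W_connected (by omega), comb_connected (by omega), muO_W_le _,
      le_trans (by omega) (le_muO_comb (by omega))⟩
  refine ⟨?_, main⟩
  intro a b
  obtain ⟨n, hn⟩ := exists_nat_gt (|a| * 9 + b)
  obtain ⟨V, hV, G, x, h1, h2, h3, h4⟩ := main n
  refine ⟨V, hV, G, x, h1, h2, ?_⟩
  have h5 : a * (muO G : ℝ) ≤ |a| * 9 := by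
    have h6 : (muO G : ℝ) ≤ 9 := by exact_mod_cast h3
    have h7 : (0 : ℝ) ≤ (muO G : ℝ) := Nat.cast_nonneg _
    calc a * (muO G : ℝ) ≤ |a| * (muO G : ℝ) :=
          mul_le_mul_of_nonneg_right (le_abs_self a) h7
      _ ≤ |a| * 9 := mul_le_mul_of_nonneg_left h6 (abs_nonneg a)
  have h8 : (n : ℝ) ≤ (muO (G.induce ({x}ᶜ : Set V)) : ℝ) := by exact_mod_cast h4
  linarith

end Pool.Agent.Results.MP_a310d2_co.NoLinearBound
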